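import Pool.Agent.H47.CD.Cor
import Mathlib.Order.WellQuasiOrder
import Mathlib.Data.DFinsupp.WellFounded
import Mathlib.Algebra.Order.Group.PiLex
import Mathlib.Algebra.BigOperators.Pi
import Mathlib.Order.Interval.Finset.Nat
import Mathlib.Data.Int.Interval
import Mathlib.Data.Pi.Interval
import Mathlib.Data.List.Sort
import Mathlib.Data.Finite.Sum
import Mathlib.Data.Finite.Prod
import Mathlib.Tactic.Ring

/-!
# Abelian groups, every alphabet (known; base case for `MP_7de2ad_al.FiniteByAbelian`)

Normal forms: sorted words with lexicographically least exponent vector; Dickson's lemma gives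
regularity and the fellow traveller property.
-/

namespace Pool.Agent.H47.FA

open Pool.Agent.H47.CD

universe u v w

section Words

variable {A : Type v} [DecidableEq A]

/-- the numbers of occurrences of the letters -/
def cnt (w : List A) : A → ℕ := fun a => w.count a

theorem cnt_append (u v : List A) : cnt (u ++ v) = cnt u + cnt v := by
  funext a
  simp [cnt]

theorem exists_cnt [Finite A] (x : A → ℕ) : ∃ w : List A, cnt w = x := by
  classical
  have := Fintype.ofFinite A
  refine ⟨(∑ a, Multiset.replicate (x a) a).toList, ?_⟩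
  funext a
  unfold cnt
  rw [← Multiset.coe_count, Multiset.coe_toList, Multiset.count_sum']
  simp [Multiset.count_replicate]

theorem perm_of_cnt {u v : List A} (h : cnt u = cnt v) : u.Perm v :=
  List.perm_iff_count.2 (fun a => congrFun h a)

theorem cnt_of_perm {u v : List A} (h : u.Perm v) : cnt u = cnt v := by
  funext a
  exact List.perm_iff_count.1 h a

end Words

theorem finite_basis {β : Type w} [PartialOrder β] [WellQuasiOrderedLE β] (S : Set β) :
    ∃ M : Set β, M.Finite ∧ M ⊆ S ∧ ∀ y ∈ S, ∃ m ∈ M, m ≤ y := by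
  refine ⟨{m | Minimal (· ∈ S) m},
    WellQuasiOrderedLE.finite_of_isAntichain (setOfPred_minimal_antichain _),
    fun m hm => hm.prop, ?_⟩
  intro y hy
  obtain ⟨m, hm, hm'⟩ := exists_minimal_le_of_wellFoundedLT (· ∈ S) y hy
  exact ⟨m, hm', hm⟩

theorem isRegular_pair {α : Type u} (a b : α) (L : Language α)
    (hL : ∀ w, w ∈ L ↔ [a, b].Sublist w) : L.IsRegular := by
  refine isRegular_of_fold (σ := Prop × Prop)
    (fun s x => (s.1 ∨ x = a, s.2 ∨ (s.1 ∧ x = b))) (False, False) {s | s.2} L ?_
  intro w
  have key : ∀ (w : List α) (s : Prop × Prop),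
      (w.foldl (fun (s : Prop × Prop) x => (s.1 ∨ x = a, s.2 ∨ (s.1 ∧ x = b))) s).2 ↔
        s.2 ∨ (s.1 ∧ b ∈ w) ∨ [a, b].Sublist w := by
    intro w
    induction w with
    | nil => intro s; simp
    | cons x w ih =>
      intro s
      rw [List.foldl_cons, ih]
      have h1 : [a, b].Sublist (x :: w) ↔ [a, b].Sublist w ∨ (x = a ∧ b ∈ w) := by
        rw [List.sublist_cons_iff]
        constructor
        · rintro (h | ⟨r, h2, h3⟩)
          · exact Or.inl h
          · simp only [List.cons.injEq] at h2
            obtain ⟨rfl, rfl⟩ := h2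
            exact Or.inr ⟨rfl, List.singleton_sublist.1 h3⟩
        · rintro (h | ⟨rfl, h3⟩)
          · exact Or.inl h
          · exact Or.inr ⟨[b], rfl, List.singleton_sublist.2 h3⟩
      rw [h1, List.mem_cons]
      simp only
      constructor
      · rintro ((h | ⟨h, rfl⟩) | ⟨h | h, h'⟩ | h)
        · exact Or.inl h
        · exact Or.inr (Or.inl ⟨h, Or.inl rfl⟩)
        · exact Or.inr (Or.inl ⟨h, Or.inr h'⟩)
        · exact Or.inr (Or.inr (Or.inr ⟨h, h'⟩))
        · exact Or.inr (Or.inr (Or.inl h))
      · rintro (h | ⟨h, h' | h'⟩ | h | ⟨h, h'⟩)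
        · exact Or.inl (Or.inl h)
        · exact Or.inl (Or.inr ⟨h, h'.symm⟩)
        · exact Or.inr (Or.inl ⟨Or.inl h, h'⟩)
        · exact Or.inr (Or.inr h)
        · exact Or.inr (Or.inl ⟨Or.inr h, h'⟩)
  rw [hL]
  change _ ↔ (w.foldl (fun (s : Prop × Prop) x => (s.1 ∨ x = a, s.2 ∨ (s.1 ∧ x = b)))
    (False, False)).2
  rw [key]
  simp

theorem isRegular_count {α : Type u} [DecidableEq α] (a : α) (n : ℕ) (L : Language α)
    (hL : ∀ w, w ∈ L ↔ n ≤ w.count a) : L.IsRegular := by
  refine isRegular_of_fold (σ := Fin (n + 1))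
    (fun s x => if x = a then ⟨min (s + 1) n, by omega⟩ else s) 0 {s | (s : ℕ) = n} L ?_
  intro w
  have key : ∀ (w : List α) (s : Fin (n + 1)),
      ((w.foldl (fun (s : Fin (n + 1)) x => if x = a then ⟨min (s + 1) n, by omega⟩ else s) s :
        Fin (n + 1)) : ℕ) = min (s + w.count a) n := by
    intro w
    induction w with
    | nil => intro s; simp; omega
    | cons x w ih =>
      intro s
      rw [List.foldl_cons, ih, List.count_cons]
      by_cases hx : x = a
      · simp only [hx, if_true, beq_self_eq_true]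
        omega
      · simp [hx]
  rw [hL]
  change _ ↔ ((w.foldl (fun (s : Fin (n + 1)) x =>
    if x = a then ⟨min (s + 1) n, by omega⟩ else s) 0 : Fin (n + 1)) : ℕ) = n
  rw [key]
  simp

theorem count_take {A : Type v} [LinearOrder A] (a : A) (u : List A) (hu : u.Pairwise (· ≤ ·))
    (i : ℕ) : (u.take i).count a =
      min (u.count a) (i - u.countP (fun b => decide (b < a))) := by
  induction u generalizing i with
  | nil => simp
  | cons b u ih =>
    rw [List.pairwise_cons] at hu
    cases i with
    | zero => simp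
    | succ i =>
      rw [List.take_succ_cons, List.count_cons, List.count_cons, List.countP_cons, ih hu.2]
      rcases lt_trichotomy b a with h | h | h
      · have h1 : ¬ (b == a) = true := by simpa using h.ne
        simp only [h1, h, decide_true, if_true]
        simp
      · subst h
        have h2 : u.countP (fun c => decide (c < b)) = 0 := by
          rw [List.countP_eq_zero]
          intro c hc
          simpa using hu.1 c hc
        rw [h2]
        simp
      · have h1 : ¬ (b == a) = true := by simpa using h.ne'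
        have h2 : u.count a = 0 := by
          rw [List.count_eq_zero]
          intro ha
          exact absurd (hu.1 a ha) (not_le.2 h)
        rw [h2]
        simp [h1]

section Group

variable {G : Type u} [CommGroup G] {A : Type v} [Fintype A] [LinearOrder A] (ev : A → G)

theorem value_eq (w : List A) : value ev w = ∏ a, ev a ^ (w.count a) := by
  induction w with
  | nil => simp [value]
  | cons b w ih =>
    have : value ev (b :: w) = ev b * value ev w := by simp [value]
    rw [this, ih]
    simp only [List.count_cons, pow_add, Finset.prod_mul_distrib]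
    rw [mul_comm]
    congr 1
    rw [Finset.prod_eq_single b]
    · simp
    · intro c _ hc
      have : ¬ (b == c) = true := by simpa using hc.symm
      simp [this]
    · simp

theorem value_perm {u v : List A} (h : u.Perm v) : value ev u = value ev v :=
  (h.map ev).prod_eq

/-- the exponent vector of `w` is least in its class -/
def Least (w : List A) : Prop :=
  ∀ v : List A, value ev v = value ev w → ¬ toLex (cnt v) < toLex (cnt w)

theorem Least.of_append {u t : List A} (h : Least ev (u ++ t)) : Least ev u := by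
  intro v hv hlt
  refine h (v ++ t) (by rw [value_append, value_append, hv]) ?_
  rw [cnt_append, cnt_append, toLex_add, toLex_add]
  exact add_lt_add_left hlt _

theorem Least.of_perm {u v : List A} (h : Least ev u) (huv : u.Perm v) : Least ev v := by
  intro z hz hlt
  refine h z (by rw [hz, value_perm ev huv]) ?_
  rw [cnt_of_perm huv]
  exact hlt

theorem Least.cnt_eq {u v : List A} (hu : Least ev u) (hv : Least ev v)
    (h : value ev u = value ev v) : cnt u = cnt v := by
  rcases lt_trichotomy (toLex (cnt u)) (toLex (cnt v)) with h1 | h1 | h1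
  · exact absurd h1 (hv u h)
  · exact toLex.injective h1
  · exact absurd h1 (hu v h.symm)

/-- the normal forms -/
def nf : Language A := {w | w.Pairwise (· ≤ ·) ∧ Least ev w}

theorem nf_prefix : PrefixClosed (nf ev) := by
  rintro u v ⟨h1, h2⟩ ⟨t, rfl⟩
  exact ⟨(List.pairwise_append.1 h1).1, h2.of_append ev⟩

theorem nf_inj (u v : List A) (hu : u ∈ nf ev) (hv : v ∈ nf ev)
    (h : value ev u = value ev v) : u = v := by
  have h1 := hu.2.cnt_eq ev hv.2 h
  exact List.Perm.eq_of_pairwise (fun a b _ _ hab hba => le_antisymm hab hba) hu.1 hv.1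
    (perm_of_cnt h1)

theorem nf_onto (hgen : Submonoid.closure (Set.range ev) = ⊤) (g : G) :
    ∃ w ∈ nf ev, value ev w = g := by
  obtain ⟨z, hz⟩ := exists_word ev hgen g
  obtain ⟨x, hx⟩ := exists_minimal_of_wellFoundedLT
    (fun x : Lex (A → ℕ) => ∃ w : List A, toLex (cnt w) = x ∧ value ev w = g)
    ⟨_, z, rfl, hz⟩
  obtain ⟨w, hw, hwg⟩ := hx.prop
  have hmin : Least ev w := by
    intro v hv hlt
    have h1 : toLex (cnt v) < x := hw ▸ hlt
    exact hx.not_prop_of_lt h1 ⟨v, rfl, hv.trans hwg⟩
  have hp := List.perm_insertionSort (fun a b : A => a ≤ b) w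
  refine ⟨List.insertionSort (fun a b : A => a ≤ b) w,
    ⟨List.pairwise_insertionSort _ _, hmin.of_perm ev hp.symm⟩, ?_⟩
  rw [value_perm ev hp, hwg]

theorem nf_regular : (nf ev).IsRegular := by
  classical
  set B : Set (A → ℕ) := {x | ∃ v w : List A, cnt w = x ∧ value ev v = value ev w ∧
    toLex (cnt v) < toLex (cnt w)} with hB
  obtain ⟨M, hM, hMB, hM'⟩ := finite_basis B
  have : Finite M := hM
  refine isRegular_bool (ι := (A × A) ⊕ (M × A))
    (fun i => match i with
      | Sum.inl p => {w | [p.1, p.2].Sublist w}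
      | Sum.inr p => {w | p.1.1 p.2 ≤ w.count p.2}) ?_
    (fun p => (∀ a b : A, ¬ a ≤ b → ¬ p (Sum.inl (a, b))) ∧
      ∀ m : M, ¬ ∀ a : A, p (Sum.inr (m, a))) _ ?_
  · rintro (p | p)
    · exact isRegular_pair p.1 p.2 _ (fun w => Iff.rfl)
    · exact isRegular_count p.2 (p.1.1 p.2) _ (fun w => Iff.rfl)
  · intro w
    change (w.Pairwise (· ≤ ·) ∧ Least ev w) ↔
      ((∀ a b : A, ¬ a ≤ b → ¬ [a, b].Sublist w) ∧ ∀ m : M, ¬ ∀ a : A, m.1 a ≤ w.count a)
    have h1 : w.Pairwise (· ≤ ·) ↔ ∀ a b : A, ¬ a ≤ b → ¬ [a, b].Sublist w := by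
      rw [List.pairwise_iff_forall_sublist]
      constructor
      · intro h a b hab hs
        exact hab (h hs)
      · intro h a b hs
        by_contra hab
        exact h a b hab hs
    rw [h1]
    refine and_congr_right (fun _ => ?_)
    constructor
    · rintro hl ⟨m, hm⟩ hle
      obtain ⟨v0, w0, hw0, hval, hlt⟩ := hMB hm
      obtain ⟨z, hz⟩ := exists_cnt (cnt w - m)
      have h2 : cnt (w0 ++ z) = cnt w := by
        rw [cnt_append, hw0, hz]
        funext a
        have := hle a
        simp only [Pi.add_apply, Pi.sub_apply, cnt] at this ⊢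
        omega
      have h3 := hl.of_perm ev (perm_of_cnt h2).symm
      refine h3 (v0 ++ z) (by rw [value_append, value_append, hval]) ?_
      rw [cnt_append, cnt_append, toLex_add, toLex_add]
      exact add_lt_add_left hlt _
    · intro h v hv hlt
      obtain ⟨m, hm, hle⟩ := hM' (cnt w) ⟨v, w, rfl, hv, hlt⟩
      exact h ⟨m, hm⟩ (fun a => hle a)

theorem nf_FT (g : G) : FT ev (nf ev) g := by
  classical
  set S : Set ((A → ℕ) × (A → ℕ)) := {p | ∃ u v : List A, cnt u = p.1 ∧ cnt v = p.2 ∧
    value ev u * g = value ev v} with hS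
  obtain ⟨M, hM, hMS, hM'⟩ := finite_basis S
  have hch : ∀ p : M, ∃ q : List A × List A, cnt q.1 = p.1.1 ∧ cnt q.2 = p.1.2 ∧
      value ev q.1 * g = value ev q.2 := by
    rintro ⟨p, hp⟩
    obtain ⟨u, v, h⟩ := hMS hp
    exact ⟨(u, v), h⟩
  choose q hq1 hq2 hq3 using hch
  have : Finite M := hM
  obtain ⟨C, hC⟩ := (Set.finite_range (fun p : M => 2 * ((q p).1.length + (q p).2.length))).bddAbove
  refine ⟨(fun d : A → ℤ => ∏ a, ev a ^ d a) '' Set.Icc (fun _ => -(C : ℤ)) (fun _ => (C : ℤ)),
    (Set.finite_Icc _ _).image _, ?_⟩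
  intro u hu v hv huv i
  obtain ⟨m, hm, hle⟩ := hM' (cnt u, cnt v) ⟨u, v, rfl, rfl, huv⟩
  set p : M := ⟨m, hm⟩ with hp
  obtain ⟨x, hx⟩ := exists_cnt (cnt u - m.1)
  obtain ⟨y, hy⟩ := exists_cnt (cnt v - m.2)
  have hux : u.Perm ((q p).1 ++ x) := by
    apply perm_of_cnt
    rw [cnt_append, hq1, hx]
    funext a
    have := hle.1 a
    simp only [Pi.add_apply, Pi.sub_apply] at this ⊢
    change cnt u a = m.1 a + (cnt u a - m.1 a)
    omega
  have hvy : v.Perm ((q p).2 ++ y) := by
    apply perm_of_cnt
    rw [cnt_append, hq2, hy]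
    funext a
    have := hle.2 a
    simp only [Pi.add_apply, Pi.sub_apply] at this ⊢
    change cnt v a = m.2 a + (cnt v a - m.2 a)
    omega
  have hlx : Least ev x :=
    ((hu.2.of_perm ev hux).of_perm ev List.perm_append_comm).of_append ev
  have hly : Least ev y :=
    ((hv.2.of_perm ev hvy).of_perm ev List.perm_append_comm).of_append ev
  have hxy : value ev x = value ev y := by
    have h1 := huv
    rw [value_perm ev hux, value_perm ev hvy, value_append, value_append, ← hq3 p] at h1
    have h2 : value ev (q p).1 * g * value ev x = value ev (q p).1 * g * value ev y := by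
      rw [← h1]
      exact mul_right_comm _ _ _
    exact mul_left_cancel h2
  have hcxy := hlx.cnt_eq ev hly hxy
  have hvx : v.Perm ((q p).2 ++ x) := hvy.trans (List.Perm.append_left _ (perm_of_cnt hcxy).symm)
  have hCp : 2 * ((q p).1.length + (q p).2.length) ≤ C := hC ⟨p, rfl⟩
  refine ⟨fun a => ((v.take i).count a : ℤ) - (u.take i).count a, ?_, ?_⟩
  · have hb : ∀ a, -(C : ℤ) ≤ ((v.take i).count a : ℤ) - (u.take i).count a ∧
        ((v.take i).count a : ℤ) - (u.take i).count a ≤ C := by
      intro a
      rw [count_take a u hu.1 i, count_take a v hv.1 i, hux.count_eq, hvx.count_eq,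
        hux.countP_eq, hvx.countP_eq, List.count_append, List.count_append, List.countP_append,
        List.countP_append]
      have h1 : (q p).1.count a ≤ (q p).1.length := List.count_le_length
      have h2 : (q p).2.count a ≤ (q p).2.length := List.count_le_length
      have h3 : (q p).1.countP (fun b => decide (b < a)) ≤ (q p).1.length :=
        List.countP_le_length
      have h4 : (q p).2.countP (fun b => decide (b < a)) ≤ (q p).2.length :=
        List.countP_le_length
      omega
    exact ⟨fun a => (hb a).1, fun a => (hb a).2⟩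
  · simp only
    rw [value_eq, value_eq, ← Finset.prod_inv_distrib, ← Finset.prod_mul_distrib]
    refine Finset.prod_congr rfl (fun a _ => ?_)
    rw [zpow_sub, zpow_natCast, zpow_natCast, mul_comm]

end Group

theorem abelian {G : Type u} [CommGroup G] {A : Type v} [Finite A] (ev : A → G)
    (hgen : Submonoid.closure (Set.range ev) = ⊤) :
    ∃ L : Language A, IsAutomaticStructure ev L ∧ PrefixClosed L ∧ Uniqueness ev L := by
  classical
  obtain ⟨n, ⟨e⟩⟩ := Finite.exists_equiv_fin A
  let _ : Fintype A := Fintype.ofFinite A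
  let _ : LinearOrder A := LinearOrder.lift' e e.injective
  refine ⟨nf ev, automatic_of_FT ev _ hgen (nf_regular ev) (nf_onto ev hgen) (nf_FT ev),
    nf_prefix ev, ?_⟩
  intro g
  obtain ⟨w, hw, hwg⟩ := nf_onto ev hgen g
  exact ⟨w, ⟨hw, hwg⟩, fun v hv => nf_inj ev v w hv.1 hw (hv.2.trans hwg.symm)⟩

end Pool.Agent.H47.FA
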